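import Mathlib

set_option autoImplicit false

namespace Pool.Agent.Results.MP_c84e26_co.Yes

open Filter Real

/-- `A` satisfies the recursion defining the set of P-positions of the ruleset `R`. -/
def IsP (R : Set (Finset ℕ)) (A : Set ℕ) : Prop :=
  ∀ n, n ∈ A ↔ ¬ ∃ M ∈ R, (∀ m ∈ M, m ≤ n) ∧ ∀ m ∈ M, n - m ∈ A

/-- The base ruleset. -/
def M0 : Set (Finset ℕ) := {M | ∃ d, 1 ≤ d ∧ M = {d, 2 * d}}

lemma uniq {R : Set (Finset ℕ)} (hR : ∀ M ∈ R, M.Nonempty ∧ 0 ∉ M) {A B : Set ℕ} (hA : IsP R A)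
    (hB : IsP R B) : A = B := by
  ext n
  induction n using Nat.strong_induction_on with
  | _ n ih =>
    rw [hA n, hB n]
    refine not_congr (exists_congr fun M => and_congr_right fun hM => and_congr_right fun h =>
      forall₂_congr fun m hm => ih _ ?_)
    have := h m hm
    have : m ≠ 0 := fun e => (hR M hM).2 (e ▸ hm)
    omega

lemma growth (C : ℝ) : ∀ᶠ k : ℕ in atTop,
    C * ((6 * 8 ^ k : ℕ) : ℝ) ^ (log 2 / log 3) < rothNumberNat (8 ^ k) := by
  have h8 : Tendsto (fun k : ℕ => ((8 ^ k : ℕ) : ℝ)) atTop atTop :=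
    tendsto_natCast_atTop_atTop.comp (tendsto_pow_atTop_atTop_of_one_lt (by norm_num))
  filter_upwards [(tendsto_log_atTop.comp h8).eventually_ge_atTop (24 ^ 2),
    ((tendsto_rpow_atTop (by norm_num : (0 : ℝ) < 1 / 6)).comp h8).eventually_gt_atTop (|C| * 6)]
    with k h1 h2
  refine lt_of_lt_of_le ?_ Behrend.roth_lower_bound
  simp only [Function.comp] at h1 h2
  push_cast at *
  generalize hn : (8 : ℝ) ^ k = n at *
  have n1 : 1 ≤ n := hn ▸ one_le_pow₀ (by norm_num)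
  have n0 : 0 < n := by linarith
  have a1 : log 2 / log 3 ≤ 2 / 3 := by
    rw [div_le_div_iff₀ (log_pos (by norm_num)) (by norm_num)]
    have := log_le_log (by norm_num : (0 : ℝ) < 2 ^ 3) (by norm_num : (2 : ℝ) ^ 3 ≤ 3 ^ 2)
    simp only [log_pow] at this
    push_cast at this
    linarith
  have a2 : (6 * n) ^ (log 2 / log 3) ≤ 6 * n ^ (2 / 3 : ℝ) := by
    refine (rpow_le_rpow_of_exponent_le (by linarith) a1).trans ?_
    rw [mul_rpow (by norm_num) n0.le]
    gcongr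
    exact (rpow_le_rpow_of_exponent_le (by norm_num) (by norm_num : (2 / 3 : ℝ) ≤ 1)).trans
      (rpow_one 6).le
  have a3 : n ^ (-1 / 6 : ℝ) ≤ exp (-4 * √(log n)) := by
    rw [rpow_def_of_pos n0, exp_le_exp]
    have s1 : 24 ≤ √(log n) := le_sqrt_of_sq_le h1
    have s2 := mul_self_sqrt (show 0 ≤ log n by linarith)
    nlinarith
  have a4 : n ^ (1 / 6 : ℝ) * n ^ (2 / 3 : ℝ) = n * n ^ (-1 / 6 : ℝ) := by
    rw [← rpow_add n0, ← rpow_one_add' n0.le (by norm_num)]; norm_num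
  have p : 0 < n ^ (2 / 3 : ℝ) := by positivity
  calc C * (6 * n) ^ (log 2 / log 3) ≤ |C| * (6 * n ^ (2 / 3 : ℝ)) :=
        mul_le_mul (le_abs_self C) a2 (by positivity) (abs_nonneg C)
    _ < n ^ (1 / 6 : ℝ) * n ^ (2 / 3 : ℝ) := by nlinarith
    _ ≤ _ := by rw [a4]; gcongr

theorem result : ∃ M' : Set (Finset ℕ), (∀ M ∈ M', M.Nonempty ∧ 0 ∉ M) ∧ ∃ A : Set ℕ,
    (∀ B, IsP (M0 ∪ M') B ↔ B = A) ∧
    ∀ C : ℝ, ∃ᶠ x : ℕ in atTop, C * (x : ℝ) ^ (log 2 / log 3) < ({i ∈ A | i < x}.ncard : ℝ) := by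
  choose B B1 B2 B3 using rothNumberNat_spec
  let A : Set ℕ := {a | a ≤ 1 ∨ ∃ k, ∃ b ∈ B (8 ^ k), a = 4 * 8 ^ k + 2 * b}
  have lt : ∀ {k b}, b ∈ B (8 ^ k) → b < 8 ^ k := fun h => Finset.mem_range.1 (B1 _ h)
  have pw : ∀ {j k : ℕ}, j < k → 8 * 8 ^ j ≤ 8 ^ k := fun h => by
    rw [← pow_succ']; exact Nat.pow_le_pow_right (by norm_num) h
  have p1 : ∀ k : ℕ, 1 ≤ 8 ^ k := fun k => Nat.one_le_pow _ _ (by norm_num)
  have free : ∀ a d, 1 ≤ d → a ∈ A → a + d ∈ A → a + 2 * d ∉ A := by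
    rintro a d hd ha hb (hc | ⟨k, c, c1, c2⟩)
    · omega
    have := lt c1
    have := p1 k
    rcases hb with hb | ⟨j, b, b1, b2⟩
    · omega
    have := lt b1
    rcases lt_trichotomy j k with h | rfl | h
    · have := pw h; omega
    · rcases ha with ha | ⟨i, a, a1, a2⟩
      · omega
      have := lt a1
      rcases lt_trichotomy i j with h | rfl | h
      · have := pw h; omega
      · have := B3 _ a1 b1 c1 (by omega); omega
      · have := pw h; omega
    · have := pw h; omega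
  have cons : ∀ a, a ∈ A → a + 1 ∈ A → a = 0 := by
    rintro a (ha | ⟨i, a, -, ha⟩) (hb | ⟨j, b, -, hb⟩)
    · omega
    · have := p1 j; omega
    · omega
    · omega
  have hM : ∀ M ∈ {M : Finset ℕ | ∃ n ∉ A, M = {n - 1, n}}, M.Nonempty ∧ 0 ∉ M := by
    rintro _ ⟨n, hn, rfl⟩
    have : ¬ n ≤ 1 := fun h => hn (Or.inl h)
    exact ⟨by simp, by simp; omega⟩
  have hA : IsP (M0 ∪ {M | ∃ n ∉ A, M = {n - 1, n}}) A := fun n => by
    constructor
    · rintro hn ⟨_, ⟨d, hd, rfl⟩ | ⟨m, hm, rfl⟩, h1, h2⟩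
      · have h3 := h1 (2 * d) (by simp)
        refine free (n - 2 * d) d hd (h2 _ (by simp)) ?_ (by rwa [Nat.sub_add_cancel h3])
        convert h2 d (by simp) using 1; omega
      · have h3 := h1 m (by simp)
        have : ¬ m ≤ 1 := fun h => hm (Or.inl h)
        have := cons (n - m) (h2 _ (by simp)) (by convert h2 (m - 1) (by simp) using 1; omega)
        exact hm (by rwa [show m = n by omega])
    · intro h
      by_contra hn
      refine h ⟨_, Or.inr ⟨n, hn, rfl⟩, by simp, fun m hm => Or.inl ?_⟩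
      simp at hm; omega
  refine ⟨_, hM, A, fun S => ⟨fun h => uniq ?_ h hA, fun h => h ▸ hA⟩, fun C => ?_⟩
  · rintro M (⟨d, hd, rfl⟩ | h)
    · exact ⟨by simp, by simp; omega⟩
    · exact hM M h
  · have h6 : Tendsto (fun k : ℕ => 6 * 8 ^ k) atTop atTop :=
      (tendsto_pow_atTop_atTop_of_one_lt (by norm_num)).const_mul_atTop' (by norm_num)
    refine h6.frequently ((growth C).mono fun k hk => hk.trans_le ?_).frequently
    rw [← B2, Nat.cast_le, ← Set.ncard_coe_finset, ← Set.ncard_image_of_injective _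
      (f := fun b => 4 * 8 ^ k + 2 * b) fun a b h => by simp only at h; omega]
    refine Set.ncard_le_ncard ?_ ((Set.finite_Iio _).subset fun i hi => hi.2)
    rintro _ ⟨b, hb, rfl⟩
    have := lt hb
    exact ⟨Or.inr ⟨k, b, hb, rfl⟩, by simp only; omega⟩

end Pool.Agent.Results.MP_c84e26_co.Yes
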